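import Pool.Agent.helper25.HH.SpecE
import Pool.Agent.helper25.HH.HFW
import Pool.Agent.helper52.IR.IRM

/-! Row `hh:HHM`: the theorem for a measure with the property GP. -/

set_option autoImplicit false

open scoped MatrixGroups ContDiff Topology UpperHalfPlane ComplexConjugate
open UpperHalfPlane MeasureTheory Filter Set

namespace Pool.Agent.HH

open Pool.Agent.RS
open Pool.Agent.MS (bq BB BA SF pf)
open Pool.Agent.HV (FW)
open Pool.Agent.EN (XG MG mkX mkM fl pr)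
open Pool.Agent.ER (Low LowJ)
open Pool.Agent.IR

theorem HHM_key (hGLC : RS.GLC_stmt) (hFW : HFW_stmt) (hBK1 : IR.BK1_stmt) (hBK : HBK_stmt) (hSFP : IR.SFP_stmt)
    (G : ℕ) (η c ε0 : ℝ) (hG : 1 ≤ G) (hc : 0 < c) (hε0 : 0 ≤ ε0) (hε0η : ε0 < η) (hε0' : ε0 < 1 / 4000) (hHALP : HALP G η c)
    (Γ : Subgroup SL(2, ℝ)) (μ : Measure (XG Γ)) (K : ℝ) (hΓ : QU.SurfaceGroup Γ) (hμ : IsProbabilityMeasure μ)
    (hfl : ∀ t, μ.map (fl Γ t) = μ) (hK : 1 ≤ K) (H : IR.GP Γ μ K) (e : ℝ) (he : 0 < e) (he1 : e ≤ 1) :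
    μ.real (Low Γ μ (1 / 2 + ε0)) + μ.real (Low Γ μ (1 / 2 + ε0)) ≤ 1 + 4 * e := by
  classical
  have hlM : Continuous lM := hGLC.2.2.2.2.2.1
  obtain ⟨a0, ha0, HF⟩ := hFW Γ μ (1 / 2 + ε0) hΓ hμ hfl (by linarith)
  obtain ⟨C3, hC3, HF1⟩ := HF a0 ha0 le_rfl G G (by omega)
  obtain ⟨a1, ha1⟩ : ∃ a1 : ℝ, a1 = 1 / 2 - 1 / 4000 := ⟨_, rfl⟩
  obtain ⟨ε', hε'⟩ : ∃ ε' : ℝ, ε' = 1 / 4000 - ε0 := ⟨_, rfl⟩
  have hε'0 : 0 < ε' := by rw [hε']; linarith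
  obtain ⟨η', hη'⟩ : ∃ η' : ℝ, η' = min (η - ε0) (ε' / 8) := ⟨_, rfl⟩
  have hη'0 : 0 < η' := by rw [hη']; exact lt_min (by linarith) (by linarith)
  have hη'1 : η' ≤ η - ε0 := by rw [hη']; exact min_le_left _ _
  have hη'2 : η' ≤ ε' / 8 := by rw [hη']; exact min_le_right _ _
  obtain ⟨δ, hδ⟩ : ∃ δ, δ = (e / 200) ^ 2 := ⟨_, rfl⟩
  have hδ0 : 0 < δ := by rw [hδ]; positivity
  have hδ1 : δ ≤ 1 := by rw [hδ]; nlinarith
  obtain ⟨Λ2, hΛ⟩ : ∃ Λ2, Λ2 = 4 * K * C3 / δ := ⟨_, rfl⟩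
  have hKC : 1 ≤ K * C3 := by nlinarith
  have hΛ1 : 1 ≤ Λ2 := by
    rw [hΛ, le_div_iff₀ hδ0]
    nlinarith
  obtain ⟨C1, p1, hC1, HB1⟩ := hBK1 Γ μ a1 hΓ hμ hfl (by rw [ha1]; norm_num) Λ2 η' e hΛ1 hη'0 he
  obtain ⟨q2, HB2⟩ := hBK Γ μ G η c ε0 hΓ hμ hfl hG hc hε0 hε0η hHALP Λ2 C3 e hΛ1 hC3 he
  obtain ⟨m3, HF2⟩ := HF1 η' e hη'0 he
  obtain ⟨q4, HN4⟩ := IRM_exp 32 c (δ ^ 2 / 512) (by norm_num) hc (by positivity)
  obtain ⟨q5, HN5⟩ := IRM_exp (C1 * C3) ε' (δ ^ 2 / 512) (by positivity) hε'0 (by positivity)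
  obtain ⟨q, hq⟩ : ∃ q, q = max (max p1 q2) (max m3 (max q4 q5)) := ⟨_, rfl⟩
  have e1 : p1 ≤ q := by rw [hq]; exact (le_max_left _ _).trans (le_max_left _ _)
  have e2 : q2 ≤ q := by rw [hq]; exact (le_max_right _ _).trans (le_max_left _ _)
  have e3 : m3 ≤ q := by rw [hq]; exact (le_max_left _ _).trans (le_max_right _ _)
  have e4 : q4 ≤ q := by rw [hq]; exact ((le_max_left _ _).trans (le_max_right _ _)).trans (le_max_right _ _)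
  have e5 : q5 ≤ q := by rw [hq]; exact ((le_max_right _ _).trans (le_max_right _ _)).trans (le_max_right _ _)
  have hqG : q ≤ G * (2 * q) := by nlinarith
  have hq0 : (0 : ℝ) ≤ q := Nat.cast_nonneg _
  have hGR : (1 : ℝ) ≤ G := by exact_mod_cast hG
  have hqGR : (q : ℝ) ≤ G * (2 * (q : ℝ)) := by nlinarith
  obtain ⟨εc, hεc⟩ : ∃ εc : ℝ, εc = Real.pi / (2 * Λ2) * Real.exp (-(3 * (G * (2 * (q : ℝ))))) := ⟨_, rfl⟩
  have hpi := Real.pi_pos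
  have hεc0 : 0 < εc := by rw [hεc]; positivity
  obtain ⟨Ψ, Ψa, Ψn, Ψl, hSF, hΨ1, hΨn, hΨl, hΨm, hΨY⟩ := HF2 (2 * q) (by omega)
  obtain ⟨Ψ1, Ψ1a, Ψ1n, Ψ1l, B1, hSF1, hΨ11, hΨ1n, hΨ1l, hΨ1m, hΨ1J⟩ := HB1 (G * (2 * q)) εc (e1.trans hqG) (by rw [hεc]; push_cast; rfl)
  obtain ⟨Ψ2, Ψ2a, Ψ2n, Ψ2l, B2, hSF2, hΨ21, hΨ2n, hΨ2l, hΨ2m, hΨ2J⟩ := HB2 q εc e2 hεc
  have hP := ((hSFP Γ _ _ _ _ ((hSFP Γ _ _ _ _ hSF1).2.1)).1 _ _ _ _ ((hSFP Γ _ _ _ _ hSF2).2.1))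
  have hP' := (hSFP Γ _ _ _ _ hP).2.1
  have hb1 : 0 ≤ B1 := (abs_nonneg _).trans (hΨ1n 1)
  have hb2 : 0 ≤ B2 := (abs_nonneg _).trans (hΨ2n 1)
  have hbd : ∀ u v x y : ℝ, 0 ≤ u → u ≤ 1 → 0 ≤ v → v ≤ 1 → |x| ≤ B1 → |y| ≤ B2 →
      |-(-x * (1 - v) + (1 - u) * -y)| ≤ B1 + B2 := by
    intro u v x y hu hu1 hv hv1 hx hy
    have h3 : |x * (1 - v)| ≤ B1 := by
      rw [abs_mul, abs_of_nonneg (by linarith : (0:ℝ) ≤ 1 - v)]
      calc |x| * (1 - v) ≤ B1 * 1 := mul_le_mul hx (by linarith) (by linarith) hb1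
        _ = B1 := mul_one _
    have h4 : |(1 - u) * y| ≤ B2 := by
      rw [abs_mul, abs_of_nonneg (by linarith : (0:ℝ) ≤ 1 - u)]
      calc (1 - u) * |y| ≤ 1 * B2 := mul_le_mul (by linarith) hy (abs_nonneg _) (by linarith)
        _ = B2 := one_mul _
    have h5 : -(-x * (1 - v) + (1 - u) * -y) = x * (1 - v) + (1 - u) * y := by ring
    rw [h5]
    exact (abs_add_le _ _).trans (add_le_add h3 h4)
  have hcast : (((3 * (G * (2 * q)) : ℕ)) : ℝ) = 3 * (G * (2 * (q : ℝ))) := by push_cast; ring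
  have hcast1 : ((G * (2 * q) : ℕ) : ℝ) = G * (2 * (q : ℝ)) := by push_cast; ring
  have hcast2 : ((2 * q : ℕ) : ℝ) = 2 * (q : ℝ) := by push_cast; ring
  simp only [hcast1] at hΨ1J
  simp only [hcast2] at hΨl hΨY
  have hL0 : εc = Real.pi / (4 * (2 * K * (C3 * Real.exp ((3 * (G * (2 * q)) : ℕ) : ℝ)) / δ)) := by
    rw [hεc, hΛ, hcast, Real.exp_neg]
    have h3 : 0 < Real.exp (3 * (G * (2 * (q:ℝ)))) := Real.exp_pos _
    field_simp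
  have hmain := H e C3 δ _ εc (B1 + B2) (εc / 100) (3 * (G * (2 * q))) Ψ Ψa Ψn Ψl _ _ _ _ he he1 hC3 hδ0 hδ.le rfl hL0 (by positivity) hSF hP' hΨ1
    (fun g => by
      have h3 := hΨ11 g
      have h4 := hΨ21 g
      have h5 : 0 ≤ (1 - Ψ1 g) * (1 - Ψ2 g) := mul_nonneg (by linarith) (by linarith)
      have h6 : (1 - Ψ1 g) * (1 - Ψ2 g) ≤ 1 := by nlinarith
      constructor <;> linarith)
    hΨn (fun g => by rw [hcast]; exact hΨl g)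
    (fun g => hbd _ _ _ _ (hΨ11 g).1 (hΨ11 g).2 (hΨ21 g).1 (hΨ21 g).2 (hΨ1n g) (hΨ2n g))
    (fun g => hbd _ _ _ _ (hΨ11 g).1 (hΨ11 g).2 (hΨ21 g).1 (hΨ21 g).2 (hΨ1l g) (hΨ2l g))
    (by
      rw [hcast]
      intro l g g' J cj hl hl0 hJ
      have hYm : MeasurableSet (Icc (0 : ℝ) 1 ∩ {v | Ψ (g' * lM v) ≠ 0}) := by
        refine measurableSet_Icc.inter ?_
        have h3 : Continuous fun v : ℝ => Ψ (g' * lM v) := hSF.i0.1.comp (continuous_const.mul hlM)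
        exact (isOpen_ne_fun h3 continuous_const).measurableSet
      have hY1 : (Icc (0 : ℝ) 1 ∩ {v | Ψ (g' * lM v) ≠ 0}) ⊆ Icc 0 1 := inter_subset_left
      have hy0 : volume.real (Icc (0 : ℝ) 1 ∩ {v | Ψ (g' * lM v) ≠ 0}) ≤
          C3 * Real.exp ((1 / 2 + ε0 + η') * (3 * (G * (2 * (q : ℝ)))) - 3 * (G * (2 * (q : ℝ)))) := by
        have h3 := hΨY g' 0 (Nat.zero_le _) 0
        have h4 : Icc (0 : ℝ) 1 ∩ {v | Ψ (g' * lM v) ≠ 0} ∩ Icc ((0 : ℝ) - 4 * Real.exp (-(((0 : ℕ) : ℝ) * (2 * (q : ℝ)))))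
            (0 + 4 * Real.exp (-(((0 : ℕ) : ℝ) * (2 * (q : ℝ))))) = Icc (0 : ℝ) 1 ∩ {v | Ψ (g' * lM v) ≠ 0} := by
          apply inter_eq_left.mpr
          intro v hv
          have h5 := hv.1
          rw [Nat.cast_zero, zero_mul, neg_zero, Real.exp_zero]
          exact ⟨by linarith [h5.1], by linarith [h5.2]⟩
        rw [h4] at h3
        have h5 : (1 / 2 + ε0 + η') * ((3 * (G : ℝ) - ((0 : ℕ) : ℝ)) * (2 * (q : ℝ))) - 3 * (G * (2 * (q : ℝ))) =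
            (1 / 2 + ε0 + η') * (3 * (G * (2 * (q : ℝ)))) - 3 * (G * (2 * (q : ℝ))) := by
          rw [Nat.cast_zero]; ring
        rwa [h5] at h3
      have hGY : GY C3 η G (2 * q) (Icc (0 : ℝ) 1 ∩ {v | Ψ (g' * lM v) ≠ 0}) := by
        refine ⟨hYm, hY1, ?_⟩
        intro i hi v
        rw [hcast2]
        refine (hΨY g' i hi v).trans ?_
        refine mul_le_mul_of_nonneg_left (Real.exp_le_exp.2 ?_) (by linarith)
        have hiR : (i : ℝ) ≤ G := by exact_mod_cast hi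
        have h3 : 0 ≤ (3 * (G : ℝ) - i) * (2 * (q : ℝ)) := mul_nonneg (by linarith) (by positivity)
        have h4 : (1 / 2 + ε0 + η') * ((3 * (G : ℝ) - i) * (2 * (q : ℝ))) ≤ (1 / 2 + η) * ((3 * (G : ℝ) - i) * (2 * (q : ℝ))) :=
          mul_le_mul_of_nonneg_right (by linarith) h3
        have h5 : 3 * ((G : ℝ) * (2 * (q : ℝ))) = 3 * (G : ℝ) * (2 * (q : ℝ)) := by ring
        linarith
      set J1 : Finset ℤ := J.filter (fun j => JC {k | Ψ1 (k * aM (-(3 * (G * (2 * (q : ℝ)))))) ≠ 0} εc l (εc / 100) g j) with hJ1d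
      have hJ1s : J1 ⊆ J := Finset.filter_subset _ _
      have hc1 : (J1.card : ℝ) ≤ C1 * Real.exp ((a1 + η') * (3 * (G * (2 * (q : ℝ))))) :=
        hΨ1J l (εc / 100) g J1 hl hl0 le_rfl (fun j hj => (Finset.mem_filter.1 hj).2)
      have hI1 := IRM_triv _ hYm hY1 J1 cj _ _ hc1 hy0
      have hI2 := hΨ2J l (εc / 100) g (J \ J1) cj _ hl hl0 le_rfl
        (fun j hj => by
          rw [Finset.mem_sdiff] at hj
          obtain ⟨hj1, u, hu, x, τ, o, e', he', hx, hτ, ho, hW⟩ := hJ j hj.1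
          refine ⟨hj1, u, hu, x, τ, o, e', he', hx, hτ, ho, ?_⟩
          simp only [mem_ofPred_eq] at hW ⊢
          intro h0
          refine hj.2 (Finset.mem_filter.2 ⟨hj.1, hj1, u, hu, x, τ, o, e', he', hx, hτ, ho, ?_⟩)
          simp only [mem_ofPred_eq]
          intro h00
          refine hW ?_
          rw [h0, h00]
          ring)
        hGY
      have hS := IRM_split _ hYm hY1 J J1 hJ1s cj _ _ (by positivity) (by positivity) hI1 hI2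
      refine hS.trans ?_
      refine mul_le_mul_of_nonneg_right ?_ (Finset.sum_nonneg fun j _ => by positivity)
      have hA : C1 * Real.exp ((a1 + η') * (3 * (G * (2 * (q : ℝ))))) *
          (C3 * Real.exp ((1 / 2 + ε0 + η') * (3 * (G * (2 * (q : ℝ)))) - 3 * (G * (2 * (q : ℝ))))) ≤ δ ^ 2 / 512 := by
        refine le_trans ?_ (HN5 q e5)
        have h3 : C1 * Real.exp ((a1 + η') * (3 * (G * (2 * (q : ℝ))))) *
            (C3 * Real.exp ((1 / 2 + ε0 + η') * (3 * (G * (2 * (q : ℝ)))) - 3 * (G * (2 * (q : ℝ))))) =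
            C1 * C3 * Real.exp ((a1 + η') * (3 * (G * (2 * (q : ℝ)))) + ((1 / 2 + ε0 + η') * (3 * (G * (2 * (q : ℝ)))) - 3 * (G * (2 * (q : ℝ))))) := by
          rw [Real.exp_add]; ring
        rw [h3]
        refine mul_le_mul_of_nonneg_left (Real.exp_le_exp.2 ?_) (by positivity)
        have h4 : (a1 + η') * (3 * (G * (2 * (q : ℝ)))) + ((1 / 2 + ε0 + η') * (3 * (G * (2 * (q : ℝ)))) - 3 * (G * (2 * (q : ℝ)))) =
            -((ε' - 2 * η') * (3 * (G * (2 * (q : ℝ))))) := by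
          rw [ha1, hε']; ring
        rw [h4]
        have h5 : ε' * q ≤ (ε' - 2 * η') * (3 * (G * (2 * (q : ℝ)))) := by
          have h6 : ε' / 2 ≤ ε' - 2 * η' := by linarith
          have h7 : (ε' / 2) * (3 * (G * (2 * (q : ℝ)))) ≤ (ε' - 2 * η') * (3 * (G * (2 * (q : ℝ)))) :=
            mul_le_mul_of_nonneg_right h6 (by positivity)
          have h8 : ε' * q ≤ (ε' / 2) * (3 * (G * (2 * (q : ℝ)))) := by nlinarith
          linarith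
        linarith
      have hB : 32 * Real.exp (-(c * (G * (2 * (q : ℝ))))) ≤ δ ^ 2 / 512 := by
        refine le_trans ?_ (HN4 q e4)
        refine mul_le_mul_of_nonneg_left (Real.exp_le_exp.2 ?_) (by norm_num)
        have h3 : c * q ≤ c * (G * (2 * (q : ℝ))) := mul_le_mul_of_nonneg_left hqGR hc.le
        linarith
      linarith)
  have hm1 := IRM_mass Γ μ _ _ _ hΨm
  have hm2 : μ.real (Low Γ μ (1 / 2 + ε0)) ≤ μ.real (one Γ (fun g => 1 - (1 - Ψ1 g) * (1 - Ψ2 g))) + 2 * e := by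
    have hsub : Low Γ μ (1 / 2 + ε0) ⊆ one Γ (fun g => 1 - (1 - Ψ1 g) * (1 - Ψ2 g)) ∪
        ((Low Γ μ a1 \ one Γ Ψ1) ∪ ((Low Γ μ (1 / 2 + ε0) \ Low Γ μ (1 / 2 - 1 / 4000)) \ one Γ Ψ2)) := by
      intro x hx
      by_cases hx1 : x ∈ Low Γ μ a1
      · by_cases hx2 : x ∈ one Γ Ψ1
        · obtain ⟨g, hg, hg1⟩ := hx2
          exact Or.inl ⟨g, hg, by simp [hg1]⟩
        · exact Or.inr (Or.inl ⟨hx1, hx2⟩)
      · by_cases hx2 : x ∈ one Γ Ψ2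
        · obtain ⟨g, hg, hg1⟩ := hx2
          exact Or.inl ⟨g, hg, by simp [hg1]⟩
        · exact Or.inr (Or.inr ⟨⟨hx, by rw [ha1] at hx1; exact hx1⟩, hx2⟩)
    have h3 := (measureReal_mono (μ := μ) hsub).trans (measureReal_union_le _ _)
    have h4 := measureReal_union_le (μ := μ) (Low Γ μ a1 \ one Γ Ψ1) ((Low Γ μ (1 / 2 + ε0) \ Low Γ μ (1 / 2 - 1 / 4000)) \ one Γ Ψ2)
    linarith
  linarith

theorem HHM_proof (hGLC : RS.GLC_stmt) (hFW : HFW_stmt) (hBK1 : IR.BK1_stmt) (hBK : HBK_stmt) (hSFP : IR.SFP_stmt) : HHM_stmt := by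
  intro G η c ε0 hG hc hε0 hε0η hε0' hHALP Γ μ K hΓ hμ hfl hK H
  by_contra hcon
  push Not at hcon
  obtain ⟨t, ht⟩ : ∃ t, t = μ.real (Low Γ μ (1 / 2 + ε0)) - 1 / 2 := ⟨_, rfl⟩
  have ht0 : 0 < t := by rw [ht]; linarith
  have h3 := HHM_key hGLC hFW hBK1 hBK hSFP G η c ε0 hG hc hε0 hε0η hε0' hHALP Γ μ K hΓ hμ hfl hK H (min (t / 8) 1) (lt_min (by linarith) one_pos) (min_le_right _ _)
  have h4 : min (t / 8) 1 ≤ t / 8 := min_le_left _ _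
  linarith

end Pool.Agent.HH
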